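import Pool.Agent.TH499.TF.LemB2
import Pool.Agent.TH499.TF.TreeP

set_option autoImplicit false
set_option linter.unusedSectionVars false

/-! # Contracting connected sets in a tree decomposition; the crossing of a square -/

namespace Pool.Agent.TH497.SC4

open Finset
open Pool.Agent.TH499.TF (Joins Ad HasTD Grow)

variable {V E : Type} [Fintype V] [DecidableEq V] [Fintype E] [DecidableEq E]
variable {src dst : E → V}

/-- a property kept along the edges in a connected set -/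
theorem Grow.all {P : V → Prop} {A : Finset V} (h : Grow src dst A)
    (hP : ∀ e x y, x ∈ A → y ∈ A → Joins src dst e x y → P x → P y) :
    ∀ x ∈ A, ∀ y ∈ A, P x → P y := by
  induction h with
  | one y =>
    intro x hx z hz hp
    rw [mem_singleton] at hx hz
    rw [hz]; rwa [hx] at hp
  | add A b a e hg hb ha hj ih =>
    have ih' := ih (fun e x y hx hy => hP e x y (mem_insert_of_mem hx) (mem_insert_of_mem hy))
    intro x hx z hz hp
    rw [mem_insert] at hx hz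
    have hab : P a → P b := hP e a b (mem_insert_of_mem ha) (mem_insert_self _ _) hj.symm
    have hba : P b → P a := hP e b a (mem_insert_self _ _) (mem_insert_of_mem ha) hj
    rcases hx with rfl | hx <;> rcases hz with rfl | hz
    · exact hp
    · exact ih' a ha z hz (hba hp)
    · exact hab (ih' x hx a ha hp)
    · exact ih' x hx z hz hp

/-- the parent, with `0` at the root -/
def qp (par : ℕ → ℕ) (k : ℕ) : ℕ := if k = 0 then 0 else par k

/-- `k` is below the node `i` -/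
def Dn (par : ℕ → ℕ) (i k : ℕ) : Prop := ∃ m, (qp par)^[m] k = i

theorem Dn.refl (par : ℕ → ℕ) (i : ℕ) : Dn par i i := ⟨0, rfl⟩

theorem Dn.par {par : ℕ → ℕ} {i k : ℕ} (h : Dn par i k) (hk : 0 < k) (hne : k ≠ i) :
    Dn par i (par k) := by
  obtain ⟨m, hm⟩ := h
  cases m with
  | zero => exact absurd hm hne
  | succ m =>
    refine ⟨m, ?_⟩
    rw [Function.iterate_succ_apply] at hm
    have : qp par k = par k := if_neg (by omega)
    rw [this] at hm
    exact hm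

theorem Dn.of_par {par : ℕ → ℕ} {i k : ℕ} (hk : 0 < k) (h : Dn par i (par k)) : Dn par i k := by
  obtain ⟨m, hm⟩ := h
  refine ⟨m + 1, ?_⟩
  rw [Function.iterate_succ_apply]
  have : qp par k = par k := if_neg (by omega)
  rw [this]
  exact hm

theorem Dn.le {par : ℕ → ℕ} {n : ℕ} (h0 : ∀ i, 0 < i → i < n → par i < i) {i k : ℕ}
    (hk : k < n) (h : Dn par i k) : i ≤ k := by
  obtain ⟨m, hm⟩ := h
  induction m generalizing k with
  | zero => exact le_of_eq hm.symm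
  | succ m ih =>
    rw [Function.iterate_succ_apply] at hm
    by_cases h : k = 0
    · have h1 : qp par k = 0 := if_pos h
      rw [h1] at hm
      have := ih (by omega) hm
      omega
    · have h1 : qp par k = par k := if_neg h
      rw [h1] at hm
      have h2 := h0 k (by omega) hk
      have := ih (by omega) hm
      omega

/-- a vertex which is below `i` and also not below `i` is in the bags of `i` and of its parent -/
theorem thru {n : ℕ} {par : ℕ → ℕ} {B : ℕ → Finset V} (h0 : ∀ i, 0 < i → i < n → par i < i)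
    (h2 : ∀ i j v, j < i → i < n → v ∈ B i → v ∈ B j → v ∈ B (par i)) {i : ℕ} (hi : 0 < i)
    (hin : i < n) {v : V} : ∀ (N k l : ℕ), k + l = N → k < n → l < n → Dn par i k →
      ¬ Dn par i l → v ∈ B k → v ∈ B l → v ∈ B i ∧ v ∈ B (par i) := by
  intro N
  induction N using Nat.strong_induction_on with
  | _ N ih =>
    intro k l hkl hk hl hDk hDl hvk hvl
    have hik := hDk.le h0 hk
    rcases Nat.lt_trichotomy l k with h | h | h
    · have h3 := h2 k l v h hk hvk hvl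
      by_cases hki : k = i
      · subst hki; exact ⟨hvk, h3⟩
      · have h4 := h0 k (by omega) hk
        exact ih (par k + l) (by omega) (par k) l rfl (by omega) hl (hDk.par (by omega) hki) hDl
          h3 hvl
    · subst h; exact absurd hDk hDl
    · have h3 := h2 l k v h hl hvl hvk
      have h4 := h0 l (by omega) hl
      exact ih (k + par l) (by omega) k (par l) rfl hk (by omega) hDk
        (fun h5 => hDl (Dn.of_par (by omega) h5)) hvk h3

/-- the bags which meet a connected set are connected -/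
theorem conn_grow {n : ℕ} {par : ℕ → ℕ} {B : ℕ → Finset V} (h0 : ∀ i, 0 < i → i < n → par i < i)
    (h1 : ∀ e, ∃ i, i < n ∧ src e ∈ B i ∧ dst e ∈ B i)
    (h2 : ∀ i j v, j < i → i < n → v ∈ B i → v ∈ B j → v ∈ B (par i)) {A : Finset V}
    (hA : Grow src dst A) {i j : ℕ} (hji : j < i) (hin : i < n) {a a' : V} (ha : a ∈ A)
    (ha' : a' ∈ A) (hai : a ∈ B i) (haj : a' ∈ B j) : ∃ b ∈ A, b ∈ B (par i) := by
  by_contra hcon
  push Not at hcon
  have hnj : ¬ Dn par i j := fun h => by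
    have := h.le h0 (by omega)
    omega
  -- all vertices of `A` are below `i`
  have key := Grow.all (P := fun v => ∃ k, k < n ∧ Dn par i k ∧ v ∈ B k) hA (by
    rintro e x y hx hy hj ⟨k, hk, hD, hxk⟩
    obtain ⟨l, hl, hl1, hl2⟩ := h1 e
    have hxl : x ∈ B l ∧ y ∈ B l := by
      rcases hj with ⟨q1, q2⟩ | ⟨q1, q2⟩
      · rw [q1] at hl1; rw [q2] at hl2; exact ⟨hl1, hl2⟩
      · rw [q1] at hl1; rw [q2] at hl2; exact ⟨hl2, hl1⟩
    by_cases hDl : Dn par i l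
    · exact ⟨l, hl, hDl, hxl.2⟩
    · exact absurd (thru h0 h2 (by omega) hin _ k l rfl hk hl hD hDl hxk hxl.1).2 (hcon x hx))
    a ha a' ha' ⟨i, hin, Dn.refl par i, hai⟩
  obtain ⟨k, hk, hD, hk2⟩ := key
  exact hcon a' ha' (thru h0 h2 (by omega) hin _ k j rfl hk (by omega) hD hnj hk2 haj).2

/-- the images of the bags under a map which contracts connected sets -/
theorem conn_image {n : ℕ} {par : ℕ → ℕ} {B : ℕ → Finset V}
    (h0 : ∀ i, 0 < i → i < n → par i < i)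
    (h1 : ∀ e, ∃ i, i < n ∧ src e ∈ B i ∧ dst e ∈ B i)
    (h2 : ∀ i j v, j < i → i < n → v ∈ B i → v ∈ B j → v ∈ B (par i)) {ρ : V → V}
    (hρ : ∀ v v', ρ v = ρ v' → v = v' ∨ ∃ A, Grow src dst A ∧ v ∈ A ∧ v' ∈ A ∧
      ∀ b ∈ A, ρ b = ρ v) :
    ∀ i j v, j < i → i < n → v ∈ (B i).image ρ → v ∈ (B j).image ρ → v ∈ (B (par i)).image ρ := by
  intro i j w hji hin hi hj
  obtain ⟨v, hv, hvw⟩ := mem_image.mp hi
  obtain ⟨v', hv', hvw'⟩ := mem_image.mp hj
  rcases hρ v v' (hvw.trans hvw'.symm) with h | ⟨A, hA, ha, ha', hb⟩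
  · subst h
    exact mem_image.mpr ⟨v, h2 i j v hji hin hv hv', hvw⟩
  · obtain ⟨b, hbA, hbB⟩ := conn_grow h0 h1 h2 hA hji hin ha ha' hv hv'
    exact mem_image.mpr ⟨b, hbB, (hb b hbA).trans hvw⟩

/-- the replacement by contracting the two parts of a partition -/
theorem s3' (hT : HasTD 5 src dst) (A B : Finset V) (p q r s u v : V) (hA : Grow src dst A)
    (hB : Grow src dst B) (hAB : Disjoint A B) (hp : p ∈ A) (hq : q ∈ A) (hr : r ∈ B)
    (hs : s ∈ B) (hu : u ∈ A) (hv : v ∈ B) (huv : Ad src dst u v) :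
    ∃ ρ : V → V, (∀ v, v ∉ A ∪ B → ρ v = v) ∧ (∀ v, v ∈ A ∪ B → ρ v = p ∨ ρ v = r) ∧ ρ p = p ∧
    ρ q = p ∧ ρ r = r ∧ ρ s = r ∧
    HasTD 5 (fun o : Option E => o.elim p (ρ ∘ src)) (fun o : Option E => o.elim r (ρ ∘ dst)) := by
  classical
  have hnot : ∀ {x}, x ∈ B → x ∉ A := fun hx hxA => disjoint_left.mp hAB hxA hx
  have e1 : ∀ x ∈ A, (if x ∈ A then p else if x ∈ B then r else x) = p := fun x hx => if_pos hx
  have e2 : ∀ x ∈ B, (if x ∈ A then p else if x ∈ B then r else x) = r := fun x hx => by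
    rw [if_neg (hnot hx), if_pos hx]
  have e3 : ∀ x, x ∉ A ∪ B → (if x ∈ A then p else if x ∈ B then r else x) = x := fun x hx => by
    rw [mem_union, not_or] at hx
    rw [if_neg hx.1, if_neg hx.2]
  refine ⟨fun x => if x ∈ A then p else if x ∈ B then r else x, e3, ?_, e1 p hp, e1 q hq, e2 r hr,
    e2 s hs, ?_⟩
  · intro x hx
    rw [mem_union] at hx
    rcases hx with hx | hx
    · exact Or.inl (e1 x hx)
    · exact Or.inr (e2 x hx)
  · obtain ⟨n, par, C, h0, h1, h2, h4⟩ := hT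
    refine ⟨n, par, fun i => (C i).image (fun x => if x ∈ A then p else if x ∈ B then r else x),
      h0, ?_, ?_, fun i hi => card_image_le.trans (h4 i hi)⟩
    · intro o
      cases o with
      | none =>
        obtain ⟨_, e, he⟩ := huv
        obtain ⟨i, hin, hi1, hi2⟩ := h1 e
        have h5 : u ∈ C i ∧ v ∈ C i := by
          rcases he with ⟨q1, q2⟩ | ⟨q1, q2⟩
          · rw [q1] at hi1; rw [q2] at hi2; exact ⟨hi1, hi2⟩
          · rw [q1] at hi1; rw [q2] at hi2; exact ⟨hi2, hi1⟩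
        exact ⟨i, hin, mem_image.mpr ⟨u, h5.1, e1 u hu⟩, mem_image.mpr ⟨v, h5.2, e2 v hv⟩⟩
      | some e =>
        obtain ⟨i, hin, hi1, hi2⟩ := h1 e
        exact ⟨i, hin, mem_image_of_mem _ hi1, mem_image_of_mem _ hi2⟩
    · refine conn_image h0 h1 h2 ?_
      intro x x' hxx
      by_cases hxA : x ∈ A
      · rw [e1 x hxA] at hxx
        by_cases hxA' : x' ∈ A
        · exact Or.inr ⟨A, hA, hxA, hxA', fun b hb => (e1 b hb).trans (e1 x hxA).symm⟩
        · by_cases hxB' : x' ∈ B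
          · rw [e2 x' hxB'] at hxx
            exact absurd hp (hxx ▸ hnot hr)
          · rw [e3 x' (by rw [mem_union, not_or]; exact ⟨hxA', hxB'⟩)] at hxx
            exact absurd (hxx ▸ hp) hxA'
      · by_cases hxB : x ∈ B
        · rw [e2 x hxB] at hxx
          by_cases hxA' : x' ∈ A
          · rw [e1 x' hxA'] at hxx
            exact absurd (hxx ▸ hp) (hnot hr)
          · by_cases hxB' : x' ∈ B
            · exact Or.inr ⟨B, hB, hxB, hxB', fun b hb => (e2 b hb).trans (e2 x hxB).symm⟩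
            · rw [e3 x' (by rw [mem_union, not_or]; exact ⟨hxA', hxB'⟩)] at hxx
              exact absurd (hxx ▸ hr) hxB'
        · rw [e3 x (by rw [mem_union, not_or]; exact ⟨hxA, hxB⟩)] at hxx
          by_cases hxA' : x' ∈ A
          · rw [e1 x' hxA'] at hxx
            exact absurd (hxx ▸ hp) hxA
          · by_cases hxB' : x' ∈ B
            · rw [e2 x' hxB'] at hxx
              exact absurd (hxx ▸ hr) hxB
            · rw [e3 x' (by rw [mem_union, not_or]; exact ⟨hxA', hxB'⟩)] at hxx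
              exact Or.inl hxx

/-- the bag of an edge -/
theorem bag_of {n : ℕ} {B : ℕ → Finset V} (h1 : ∀ e, ∃ i, i < n ∧ src e ∈ B i ∧ dst e ∈ B i)
    {u v : V} (h : Ad src dst u v) : ∃ i, i < n ∧ u ∈ B i ∧ v ∈ B i := by
  obtain ⟨_, e, he⟩ := h
  obtain ⟨i, hin, hi1, hi2⟩ := h1 e
  rcases he with ⟨q1, q2⟩ | ⟨q1, q2⟩
  · rw [q1] at hi1; rw [q2] at hi2; exact ⟨i, hin, hi1, hi2⟩
  · rw [q1] at hi1; rw [q2] at hi2; exact ⟨i, hin, hi2, hi1⟩

/-- one of the diagonals of a circuit of length four is in a bag -/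
theorem diag {n : ℕ} {par : ℕ → ℕ} {B : ℕ → Finset V} (h0 : ∀ i, 0 < i → i < n → par i < i)
    (h1 : ∀ e, ∃ i, i < n ∧ src e ∈ B i ∧ dst e ∈ B i)
    (h2 : ∀ i j v, j < i → i < n → v ∈ B i → v ∈ B j → v ∈ B (par i)) {v0 v1 v2 v3 : V}
    (h01 : Ad src dst v0 v1) (h12 : Ad src dst v1 v2) (h23 : Ad src dst v2 v3)
    (h30 : Ad src dst v3 v0) (hno : ∀ i, i < n → v0 ∈ B i → v2 ∈ B i → False) :
    ∃ i, i < n ∧ v1 ∈ B i ∧ v3 ∈ B i := by
  classical
  -- it is enough to treat the case in which the first bag of `v0` is later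
  have key : ∀ w0 w2 : V, Ad src dst w0 v1 → Ad src dst v1 w2 → Ad src dst w2 v3 →
      Ad src dst v3 w0 → (∀ i, i < n → w0 ∈ B i → w2 ∈ B i → False) →
      ∀ m0 m2, m0 < n → w0 ∈ B m0 → (∀ k, k < n → w0 ∈ B k → m0 ≤ k) → w2 ∈ B m2 →
      m2 < m0 → ∃ i, i < n ∧ v1 ∈ B i ∧ v3 ∈ B i := by
    intro w0 w2 g01 g12 g23 g30 hno m0 m2 hm0 hw0 hmin hw2 hlt
    have hnp : w0 ∉ B (par m0) := by
      intro h
      have h3 := h0 m0 (by omega) hm0
      have := hmin (par m0) (by omega) h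
      omega
    have hnm2 : ¬ Dn par m0 m2 := fun h => by
      have := h.le h0 (by omega)
      omega
    have in0 : ∀ k, k < n → w0 ∈ B k → Dn par m0 k := by
      intro k hk hwk
      by_contra hD
      exact hnp (thru h0 h2 (by omega) hm0 _ m0 k rfl hm0 hk (Dn.refl _ _) hD hw0 hwk).2
    have out2 : ∀ k, k < n → w2 ∈ B k → ¬ Dn par m0 k := by
      intro k hk hwk hD
      exact hno m0 hm0 hw0 (thru h0 h2 (by omega) hm0 _ k m2 rfl hk (by omega) hD hnm2 hwk hw2).1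
    have fin : ∀ x, Ad src dst w0 x → Ad src dst x w2 → x ∈ B m0 := by
      intro x hx hx2
      obtain ⟨k, hk, k1, k2⟩ := bag_of h1 hx
      obtain ⟨l, hl, l1, l2⟩ := bag_of h1 hx2
      exact (thru h0 h2 (by omega) hm0 _ k l rfl hk hl (in0 k hk k1) (out2 l hl l2) k2 l1).1
    exact ⟨m0, hm0, fin v1 g01 g12, fin v3 g30.symm g23.symm⟩
  have hex0 : ∃ k, k < n ∧ v0 ∈ B k := by
    obtain ⟨k, hk, k1, _⟩ := bag_of h1 h01
    exact ⟨k, hk, k1⟩
  have hex2 : ∃ k, k < n ∧ v2 ∈ B k := by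
    obtain ⟨k, hk, k1, _⟩ := bag_of h1 h23
    exact ⟨k, hk, k1⟩
  obtain ⟨a1, a2⟩ := Nat.find_spec hex0
  obtain ⟨b1, b2⟩ := Nat.find_spec hex2
  have a3 : ∀ k, k < n → v0 ∈ B k → Nat.find hex0 ≤ k := fun k hk hv => Nat.find_min' hex0 ⟨hk, hv⟩
  have b3 : ∀ k, k < n → v2 ∈ B k → Nat.find hex2 ≤ k := fun k hk hv => Nat.find_min' hex2 ⟨hk, hv⟩
  rcases Nat.lt_trichotomy (Nat.find hex2) (Nat.find hex0) with h | h | h
  · exact key v0 v2 h01 h12 h23 h30 hno _ _ a1 a2 a3 b2 h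
  · exact absurd (hno _ a1 a2 (h ▸ b2)) id
  · exact key v2 v0 h12.symm h01.symm h30.symm h23.symm (fun i hi q1 q2 => hno i hi q2 q1) _ _
      b1 b2 b3 a2 h

/-- the nodes of `v1`, of `v3` and of both `v0` and `v2` are connected -/
theorem sconn {n : ℕ} {par : ℕ → ℕ} {B : ℕ → Finset V} (h0 : ∀ i, 0 < i → i < n → par i < i)
    (h1 : ∀ e, ∃ i, i < n ∧ src e ∈ B i ∧ dst e ∈ B i)
    (h2 : ∀ i j v, j < i → i < n → v ∈ B i → v ∈ B j → v ∈ B (par i)) {v0 v1 v2 v3 : V}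
    (h01 : Ad src dst v0 v1) (h12 : Ad src dst v1 v2) (h23 : Ad src dst v2 v3)
    (h30 : Ad src dst v3 v0) {i j : ℕ} (hji : j < i) (hin : i < n)
    (hi : v1 ∈ B i ∨ v3 ∈ B i ∨ (v0 ∈ B i ∧ v2 ∈ B i))
    (hj : v1 ∈ B j ∨ v3 ∈ B j ∨ (v0 ∈ B j ∧ v2 ∈ B j)) :
    v1 ∈ B (par i) ∨ v3 ∈ B (par i) ∨ (v0 ∈ B (par i) ∧ v2 ∈ B (par i)) := by
  classical
  by_contra hcon
  push Not at hcon
  obtain ⟨c1, c3, c02⟩ := hcon
  have hnj : ¬ Dn par i j := fun h => by
    have := h.le h0 (by omega)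
    omega
  obtain ⟨z, hz, z1, z3, zi, zj⟩ : ∃ z, z ∉ B (par i) ∧ Ad src dst z v1 ∧ Ad src dst z v3 ∧
      (v1 ∈ B i ∨ v3 ∈ B i ∨ z ∈ B i) ∧ (v1 ∈ B j ∨ v3 ∈ B j ∨ z ∈ B j) := by
    by_cases h : v0 ∈ B (par i)
    · exact ⟨v2, c02 h, h12.symm, h23, hi.imp_right (Or.imp_right And.right),
        hj.imp_right (Or.imp_right And.right)⟩
    · exact ⟨v0, h, h01, h30.symm, hi.imp_right (Or.imp_right And.left),
        hj.imp_right (Or.imp_right And.left)⟩
  have mixed : ∀ x, x ∉ B (par i) → ∀ k l, k < n → l < n → Dn par i k → ¬ Dn par i l →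
      x ∈ B k → x ∈ B l → False := fun x hx k l hk hl hDk hDl hxk hxl =>
    hx (thru h0 h2 (by omega) hin _ k l rfl hk hl hDk hDl hxk hxl).2
  have down : ∀ x y, x ∉ B (par i) → Ad src dst x y → (∃ k, k < n ∧ Dn par i k ∧ x ∈ B k) →
      ∃ k, k < n ∧ Dn par i k ∧ y ∈ B k := by
    rintro x y hx hxy ⟨k, hk, hD, hxk⟩
    obtain ⟨l, hl, l1, l2⟩ := bag_of h1 hxy
    by_cases hDl : Dn par i l
    · exact ⟨l, hl, hDl, l2⟩
    · exact absurd (mixed x hx k l hk hl hD hDl hxk l1) id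
  have inz : ∃ k, k < n ∧ Dn par i k ∧ z ∈ B k := by
    rcases zi with h | h | h
    · exact down v1 z c1 z1.symm ⟨i, hin, Dn.refl _ _, h⟩
    · exact down v3 z c3 z3.symm ⟨i, hin, Dn.refl _ _, h⟩
    · exact ⟨i, hin, Dn.refl _ _, h⟩
  have in1 := down z v1 hz z1 inz
  have in3 := down z v3 hz z3 inz
  have fin : ∀ x, x ∉ B (par i) → (∃ k, k < n ∧ Dn par i k ∧ x ∈ B k) → x ∈ B j → False := by
    rintro x hx ⟨k, hk, hD, hxk⟩ hxj
    exact mixed x hx k j hk (by omega) hD hnj hxk hxj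
  rcases zj with h | h | h
  · exact fin v1 c1 in1 h
  · exact fin v3 c3 in3 h
  · exact fin z hz inz h

/-- the bags after the identification of opposite vertices of a circuit of length four -/
theorem cross {n : ℕ} {par : ℕ → ℕ} {B : ℕ → Finset V} (h0 : ∀ i, 0 < i → i < n → par i < i)
    (h1 : ∀ e, ∃ i, i < n ∧ src e ∈ B i ∧ dst e ∈ B i)
    (h2 : ∀ i j v, j < i → i < n → v ∈ B i → v ∈ B j → v ∈ B (par i))
    (h4 : ∀ i, i < n → (B i).card ≤ 5) {v0 v1 v2 v3 : V} (hnd : [v0, v1, v2, v3].Nodup)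
    (h01 : Ad src dst v0 v1) (h12 : Ad src dst v1 v2) (h23 : Ad src dst v2 v3)
    (h30 : Ad src dst v3 v0) (hb : ∃ i, i < n ∧ v0 ∈ B i ∧ v2 ∈ B i) {p r : V}
    (hp : p = v0 ∨ p = v2) (hr : r = v1 ∨ r = v3) {ρ : V → V} (r0 : ρ v0 = p) (r2 : ρ v2 = p)
    (r1 : ρ v1 = r) (r3 : ρ v3 = r)
    (rx : ∀ x, x ≠ v0 → x ≠ v1 → x ≠ v2 → x ≠ v3 → ρ x = x) :
    ∃ C : ℕ → Finset V, (∀ i v, v ∈ B i → ρ v ∈ C i) ∧
      (∀ i j v, j < i → i < n → v ∈ C i → v ∈ C j → v ∈ C (par i)) ∧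
      ∀ i, i < n → (C i).card ≤ 5 := by
  classical
  simp only [List.nodup_cons, List.mem_cons, List.not_mem_nil, not_or, or_false,
    not_false_eq_true, List.nodup_nil, and_true] at hnd
  obtain ⟨⟨n01, n02, n03⟩, ⟨n12, n13⟩, n23⟩ := hnd
  have hpr : p ≠ r := by
    rcases hp with rfl | rfl <;> rcases hr with rfl | rfl
    · exact n01
    · exact n03
    · exact Ne.symm n12
    · exact n23
  set C : ℕ → Finset V := fun i => (B i).image ρ ∪ (if v0 ∈ B i ∧ v2 ∈ B i then {r} else ∅)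
    with hC
  have hmem : ∀ i w, w ∈ C i ↔ (∃ v ∈ B i, ρ v = w) ∨ (w = r ∧ v0 ∈ B i ∧ v2 ∈ B i) := by
    intro i w
    rw [hC]
    simp only
    rw [mem_union, mem_image]
    by_cases h : v0 ∈ B i ∧ v2 ∈ B i
    · rw [if_pos h, mem_singleton]
      constructor
      · rintro (h5 | h5)
        · exact Or.inl h5
        · exact Or.inr ⟨h5, h⟩
      · rintro (h5 | h5)
        · exact Or.inl h5
        · exact Or.inr h5.1
    · rw [if_neg h]
      constructor
      · rintro (h5 | h5)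
        · exact Or.inl h5
        · exact absurd h5 (notMem_empty _)
      · rintro (h5 | h5)
        · exact Or.inl h5
        · exact absurd h5.2 h
  have hmem' : ∀ i w, w ∈ C i → (w = p ∧ (v0 ∈ B i ∨ v2 ∈ B i)) ∨
      (w = r ∧ (v1 ∈ B i ∨ v3 ∈ B i ∨ (v0 ∈ B i ∧ v2 ∈ B i))) ∨
      ((w ≠ v0 ∧ w ≠ v1 ∧ w ≠ v2 ∧ w ≠ v3) ∧ w ∈ B i) := by
    intro i w hw
    rcases (hmem i w).mp hw with ⟨v, hv, hvw⟩ | ⟨h5, h6⟩
    · by_cases q0 : v = v0
      · rw [q0, r0] at hvw; rw [q0] at hv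
        exact Or.inl ⟨hvw.symm, Or.inl hv⟩
      by_cases q2 : v = v2
      · rw [q2, r2] at hvw; rw [q2] at hv
        exact Or.inl ⟨hvw.symm, Or.inr hv⟩
      by_cases q1 : v = v1
      · rw [q1, r1] at hvw; rw [q1] at hv
        exact Or.inr (Or.inl ⟨hvw.symm, Or.inl hv⟩)
      by_cases q3 : v = v3
      · rw [q3, r3] at hvw; rw [q3] at hv
        exact Or.inr (Or.inl ⟨hvw.symm, Or.inr (Or.inl hv)⟩)
      rw [rx v q0 q1 q2 q3] at hvw
      subst hvw
      exact Or.inr (Or.inr ⟨⟨q0, q1, q2, q3⟩, hv⟩)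
    · exact Or.inr (Or.inl ⟨h5, Or.inr (Or.inr h6)⟩)
  have hpX : ¬ (p ≠ v0 ∧ p ≠ v1 ∧ p ≠ v2 ∧ p ≠ v3) := by
    rintro ⟨q0, _, q2, _⟩
    exact hp.elim q0 q2
  have hrX : ¬ (r ≠ v0 ∧ r ≠ v1 ∧ r ≠ v2 ∧ r ≠ v3) := by
    rintro ⟨_, q1, _, q3⟩
    exact hr.elim q1 q3
  refine ⟨C, fun i v hv => (hmem i _).mpr (Or.inl ⟨v, hv, rfl⟩), ?_, ?_⟩
  · intro i j w hji hin hi hj
    rcases hmem' i w hi with ⟨a1, a2⟩ | ⟨a1, a2⟩ | ⟨a1, a2⟩
    · rcases hmem' j w hj with ⟨b1, b2⟩ | ⟨b1, b2⟩ | ⟨b1, b2⟩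
      · -- the vertex `p`
        have h5 : v0 ∈ B (par i) ∨ v2 ∈ B (par i) := by
          rcases a2 with a2 | a2 <;> rcases b2 with b2 | b2
          · exact Or.inl (h2 i j _ hji hin a2 b2)
          · exact Pool.Agent.TH499.TF.two_conn h0 h2 hb hji hin a2 b2
          · obtain ⟨b, hb1, hb2, hb3⟩ := hb
            exact (Pool.Agent.TH499.TF.two_conn h0 h2 ⟨b, hb1, hb3, hb2⟩ hji hin a2 b2).symm
          · exact Or.inr (h2 i j _ hji hin a2 b2)
        rw [hmem, a1]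
        rcases h5 with h5 | h5
        · exact Or.inl ⟨v0, h5, r0⟩
        · exact Or.inl ⟨v2, h5, r2⟩
      · exact absurd (a1.symm.trans b1) hpr
      · rw [a1] at b1; exact absurd b1 hpX
    · rcases hmem' j w hj with ⟨b1, b2⟩ | ⟨b1, b2⟩ | ⟨b1, b2⟩
      · exact absurd (b1.symm.trans a1) hpr
      · rw [hmem, a1]
        rcases sconn h0 h1 h2 h01 h12 h23 h30 hji hin a2 b2 with h5 | h5 | h5
        · exact Or.inl ⟨v1, h5, r1⟩
        · exact Or.inl ⟨v3, h5, r3⟩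
        · exact Or.inr ⟨rfl, h5⟩
      · rw [a1] at b1; exact absurd b1 hrX
    · rcases hmem' j w hj with ⟨b1, b2⟩ | ⟨b1, b2⟩ | ⟨b1, b2⟩
      · rw [b1] at a1; exact absurd a1 hpX
      · rw [b1] at a1; exact absurd a1 hrX
      · rw [hmem]
        exact Or.inl ⟨w, h2 i j w hji hin a2 b2, rx w a1.1 a1.2.1 a1.2.2.1 a1.2.2.2⟩
  · intro i hin
    have h5 := h4 i hin
    rw [hC]
    simp only
    by_cases h : v0 ∈ B i ∧ v2 ∈ B i
    · rw [if_pos h]
      have h6 : (B i).image ρ ⊆ ((B i).erase v2).image ρ := by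
        intro w hw
        obtain ⟨v, hv, hvw⟩ := mem_image.mp hw
        by_cases q2 : v = v2
        · rw [q2, r2] at hvw
          exact mem_image.mpr ⟨v0, mem_erase.mpr ⟨n02, h.1⟩, r0.trans hvw⟩
        · exact mem_image.mpr ⟨v, mem_erase.mpr ⟨q2, hv⟩, hvw⟩
      have h7 := card_le_card h6
      have h8 : (((B i).erase v2).image ρ).card ≤ ((B i).erase v2).card := card_image_le
      rw [card_erase_of_mem h.2] at h8
      have h9 := card_union_le ((B i).image ρ) {r}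
      rw [card_singleton] at h9
      have h10 : 0 < (B i).card := card_pos.mpr ⟨v0, h.1⟩
      omega
    · rw [if_neg h, union_empty]
      exact card_image_le.trans h5

/-- the crossing replacement for a circuit of length four -/
theorem s4' (hT : HasTD 5 src dst) (v0 v1 v2 v3 : V) (hnd : [v0, v1, v2, v3].Nodup)
    (h01 : Ad src dst v0 v1) (h12 : Ad src dst v1 v2) (h23 : Ad src dst v2 v3)
    (h30 : Ad src dst v3 v0) :
    ∃ ρ : V → V, (∀ v, v ∉ ({v0, v1, v2, v3} : Finset V) → ρ v = v) ∧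
    (∀ v, v ∈ ({v0, v1, v2, v3} : Finset V) → ρ v = v0 ∨ ρ v = v1) ∧ ρ v0 = v0 ∧
    ρ v2 = v0 ∧ ρ v1 = v1 ∧ ρ v3 = v1 ∧
    HasTD 5 (fun o : Option E => o.elim v0 (ρ ∘ src))
      (fun o : Option E => o.elim v1 (ρ ∘ dst)) := by
  classical
  have hnd' := hnd
  simp only [List.nodup_cons, List.mem_cons, List.not_mem_nil, not_or, or_false,
    not_false_eq_true, List.nodup_nil, and_true] at hnd'
  obtain ⟨⟨n01, n02, n03⟩, ⟨n12, n13⟩, n23⟩ := hnd'
  set ρ : V → V := fun x => if x = v0 ∨ x = v2 then v0 else if x = v1 ∨ x = v3 then v1 else x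
    with hρ
  have r0 : ρ v0 = v0 := if_pos (Or.inl rfl)
  have r2 : ρ v2 = v0 := if_pos (Or.inr rfl)
  have r1 : ρ v1 = v1 := (if_neg (not_or.mpr ⟨Ne.symm n01, n12⟩)).trans (if_pos (Or.inl rfl))
  have r3 : ρ v3 = v1 :=
    (if_neg (not_or.mpr ⟨Ne.symm n03, Ne.symm n23⟩)).trans (if_pos (Or.inr rfl))
  have rx : ∀ x, x ≠ v0 → x ≠ v1 → x ≠ v2 → x ≠ v3 → ρ x = x := fun x q0 q1 q2 q3 =>
    (if_neg (not_or.mpr ⟨q0, q2⟩)).trans (if_neg (not_or.mpr ⟨q1, q3⟩))
  refine ⟨ρ, ?_, ?_, r0, r2, r1, r3, ?_⟩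
  · intro v hv
    simp only [mem_insert, mem_singleton, not_or] at hv
    exact rx v hv.1 hv.2.1 hv.2.2.1 hv.2.2.2
  · intro v hv
    simp only [mem_insert, mem_singleton] at hv
    rcases hv with rfl | rfl | rfl | rfl
    · exact Or.inl r0
    · exact Or.inr r1
    · exact Or.inl r2
    · exact Or.inr r3
  · obtain ⟨n, par, B, h0, h1, h2, h4⟩ := hT
    obtain ⟨C, c1, c2, c3⟩ : ∃ C : ℕ → Finset V, (∀ i v, v ∈ B i → ρ v ∈ C i) ∧
        (∀ i j v, j < i → i < n → v ∈ C i → v ∈ C j → v ∈ C (par i)) ∧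
        ∀ i, i < n → (C i).card ≤ 5 := by
      by_cases hb : ∃ i, i < n ∧ v0 ∈ B i ∧ v2 ∈ B i
      · exact cross h0 h1 h2 h4 hnd h01 h12 h23 h30 hb (Or.inl rfl) (Or.inl rfl) r0 r2 r1 r3 rx
      · have hd := diag h0 h1 h2 h01 h12 h23 h30 (fun i hi q1 q2 => hb ⟨i, hi, q1, q2⟩)
        refine cross h0 h1 h2 h4 (v0 := v1) (v1 := v2) (v2 := v3) (v3 := v0) ?_ h12 h23 h30 h01 hd
          (p := v1) (r := v0) (Or.inl rfl) (Or.inr rfl) r1 r3 r2 r0
          (fun x q1 q2 q3 q0 => rx x q0 q1 q2 q3)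
        simp only [List.nodup_cons, List.mem_cons, List.not_mem_nil, not_or, or_false,
          not_false_eq_true, List.nodup_nil, and_true]
        exact ⟨⟨n12, n13, Ne.symm n01⟩, ⟨n23, Ne.symm n02⟩, Ne.symm n03⟩
    refine ⟨n, par, C, h0, ?_, c2, c3⟩
    intro o
    cases o with
    | none =>
      obtain ⟨i, hi, i1, i2⟩ := bag_of h1 h01
      exact ⟨i, hi, r0 ▸ c1 i v0 i1, r1 ▸ c1 i v1 i2⟩
    | some e =>
      obtain ⟨i, hin, hi1, hi2⟩ := h1 e
      exact ⟨i, hin, c1 i _ hi1, c1 i _ hi2⟩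

end Pool.Agent.TH497.SC4
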