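import Pool.Agent.TH462.SC.Stm
import Pool.Agent.TH497.SC4.Td

set_option autoImplicit false

/-! # The statements S3 and S4 -/

namespace Pool.Agent.TH497.SC4

open Pool.Agent.TH462.SC

theorem s3 : S3 := by
  intro V E _ _ _ _ src dst hT A B X p q r s u v hA hB hAB hX hp hq hr hs hu hv huv
  subst hX
  exact s3' hT A B p q r s u v hA hB hAB hp hq hr hs hu hv huv

theorem s4 : S4 := by
  intro V E _ _ _ _ src dst hT v0 v1 v2 v3 hnd h01 h12 h23 h30
  exact s4' hT v0 v1 v2 v3 hnd h01 h12 h23 h30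

end Pool.Agent.TH497.SC4
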